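import Pool.Agent.H26.REM.Targets

/-! (INE) the main inequality. -/

set_option autoImplicit false

namespace Pool.Agent.H81.REM

open Pool.Agent.H26.REM
open NumberField Height Finset Polynomial

/-- the final computation with real numbers -/
theorem ine_real (g n D r1 ρ r2 a b hh hG lp L2 Ln p : ℝ) (hg : 0 < g) (hn : 0 < n)
    (hD : D = g * n) (hr1 : 0 ≤ r1) (hρ : 0 ≤ ρ) (hh0 : 0 ≤ hh) (hG0 : 0 ≤ hG) (hL2 : 0 ≤ L2)
    (hr2 : r2 ≤ ρ) (hr20 : 0 ≤ r2)
    (ha : n * b + D * Ln ≤ a)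
    (h : g * r1 / D * (a - 2 * hh - 2 * hG) + (2 * (g * ρ) * lp +
      g * ρ / D * (a - 2 * (p * hh) - 2 * hG)) ≤ (r1 + ρ) * b + g * (r1 + ρ) * (L2 + Ln)) :
    r2 * (lp - p * (hh / D) - (L2 / 2 + hG / D)) ≤ r1 * (L2 / 2 + hG / D + hh / D) := by
  have hD0 : 0 < D := by rw [hD]; positivity
  have key : ρ * (lp - p * (hh / D) - (L2 / 2 + hG / D)) ≤ r1 * (L2 / 2 + hG / D + hh / D) := by
    have e1 : g * r1 / D = r1 / n := by
      rw [hD]
      field_simp
    have e2 : g * ρ / D = ρ / n := by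
      rw [hD]
      field_simp
    rw [e1, e2] at h
    have h3 : (r1 + ρ) / n * (n * b + D * Ln) ≤ (r1 + ρ) / n * a :=
      mul_le_mul_of_nonneg_left ha (by positivity)
    have e3 : (r1 + ρ) / n * (n * b + D * Ln) = (r1 + ρ) * b + g * (r1 + ρ) * Ln := by
      rw [hD]
      field_simp
    have h4 : 2 * (g * ρ) * lp ≤ g * (r1 + ρ) * L2 +
        2 * ((r1 + p * ρ) * hh / n + (r1 + ρ) * hG / n) := by
      have e4 : r1 / n * (a - 2 * hh - 2 * hG) + (2 * (g * ρ) * lp +
          ρ / n * (a - 2 * (p * hh) - 2 * hG)) = (r1 + ρ) / n * a + 2 * (g * ρ) * lp -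
          2 * ((r1 + p * ρ) * hh / n + (r1 + ρ) * hG / n) := by
        field_simp
        ring
      rw [e4] at h
      linarith
    have h5 : (2 * g) * (ρ * (lp - p * (hh / D) - (L2 / 2 + hG / D))) ≤
        (2 * g) * (r1 * (L2 / 2 + hG / D + hh / D)) := by
      have e5 : (2 * g) * (ρ * (lp - p * (hh / D) - (L2 / 2 + hG / D))) =
          2 * (g * ρ) * lp - 2 * (p * ρ * hh / n) - g * ρ * L2 - 2 * (ρ * hG / n) := by
        rw [hD]
        field_simp
        ring
      have e6 : (2 * g) * (r1 * (L2 / 2 + hG / D + hh / D)) =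
          g * r1 * L2 + 2 * (r1 * hG / n) + 2 * (r1 * hh / n) := by
        rw [hD]
        field_simp
      have e7 : 2 * ((r1 + p * ρ) * hh / n + (r1 + ρ) * hG / n) =
          2 * (p * ρ * hh / n) + 2 * (ρ * hG / n) + 2 * (r1 * hG / n) + 2 * (r1 * hh / n) := by
        ring
      rw [e5, e6]
      linarith
    exact le_of_mul_le_mul_left h5 (by positivity)
  rcases le_total (lp - p * (hh / D) - (L2 / 2 + hG / D)) 0 with h0 | h0
  · have h1 : r2 * (lp - p * (hh / D) - (L2 / 2 + hG / D)) ≤ 0 :=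
      mul_nonpos_of_nonneg_of_nonpos hr20 h0
    refine h1.trans ?_
    positivity
  · exact (mul_le_mul_of_nonneg_right hr2 h0).trans key

theorem pf_INE (hUPB : T_UPB) (hLOB : T_LOB) (hINR : T_INR) (hBEX : T_BEX) : T_INE := by
  classical
  intro K M _ _ _ _ _ φ p hp hφ hdis S T _ _ Y G hY hG hspan r2 c hc hli
  have hFG : (Lam φ p Y).FG := by
    unfold Lam
    rw [LinearMap.range_eq_map]
    exact Submodule.FG.map _ Module.Finite.fg_top
  set U : Submodule ℚ (M × M) := Submodule.span ℚ (Lam φ p Y : Set (M × M)) with hU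
  obtain ⟨k, -, z, -, hz, -⟩ := hBEX (M × M) (Lam φ p Y) hFG U U le_rfl le_rfl
  obtain ⟨r, hkr, hup⟩ := hUPB K M φ p S Y hY k z hz
  obtain ⟨k1, k2, hk, hk1, hlow⟩ := hLOB K M φ p hp hφ S T Y G hY hG hspan k z hz
  have hin := hINR K M φ p S Y r2 c hc hli
  have hdim : Module.finrank ℚ U = k := by
    rw [← hz.2.1, finrank_span_eq_card hz.1, Fintype.card_fin]
  rw [← hU, hdim, hkr] at hin
  obtain ⟨g, hg⟩ : ∃ g, g = Module.finrank ℚ K := ⟨_, rfl⟩
  obtain ⟨n, hn⟩ : ∃ n, n = Module.finrank K M := ⟨_, rfl⟩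
  obtain ⟨D, hD⟩ : ∃ D, D = Module.finrank ℚ M := ⟨_, rfl⟩
  obtain ⟨r1, hr1⟩ : ∃ r1, r1 = Module.finrank K (Submodule.span K (Set.range Y)) := ⟨_, rfl⟩
  have hDgn : D = g * n := by
    rw [hD, hg, hn]
    exact (Module.finrank_mul_finrank ℚ K M).symm
  have hg0 : 0 < g := by
    rw [hg]
    exact Module.finrank_pos
  have hD0 : 0 < D := by
    rw [hD]
    exact Module.finrank_pos
  have hn0 : 0 < n := by
    rcases Nat.eq_zero_or_pos n with h | h
    · rw [hDgn, h] at hD0
      simp at hD0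
    · exact h
  rw [← hr1, ← hg] at hk1
  rw [← hg] at hkr hin hup
  rw [← hn] at hup hdis
  rw [← hD] at hlow hdis
  rw [← hr1] at hin
  rw [← hD, ← hr1]
  have hin' : r1 + r2 ≤ r := Nat.le_of_mul_le_mul_left hin hg0
  obtain ⟨ρ, hρ⟩ : ∃ ρ, r = r1 + ρ := ⟨r - r1, by omega⟩
  have hk2 : k2 = g * ρ := by
    have h1 : g * r = g * r1 + k2 := by
      rw [← hkr, hk, hk1]
    rw [hρ, mul_add] at h1
    omega
  have hr2 : r2 ≤ ρ := by omega
  have hpos := (Real.exp_pos ((k1 : ℝ) / D * (Real.log |(discr M : ℝ)| - 2 * logHeight Y -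
    2 * logHeight G)))
  have hpos2 := (Real.exp_pos ((k2 : ℝ) / D * (Real.log |(discr M : ℝ)| -
    2 * (p * logHeight Y) - 2 * logHeight G)))
  have hp0 : (0 : ℝ) < p := by exact_mod_cast hp.pos
  have hdK : (0 : ℝ) < |(discr K : ℝ)| := by
    rw [abs_pos]
    exact_mod_cast NumberField.discr_ne_zero K
  have hdM : (0 : ℝ) < |(discr M : ℝ)| := by
    rw [abs_pos]
    exact_mod_cast NumberField.discr_ne_zero M
  have hgR : (0 : ℝ) < g := by exact_mod_cast hg0
  have hnR : (0 : ℝ) < n := by exact_mod_cast hn0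
  have hch := hlow.trans hup
  have hlog := Real.log_le_log (by positivity) hch
  rw [Real.log_mul hpos.ne' (by positivity), Real.log_exp,
    Real.log_mul (by positivity) hpos2.ne', Real.log_exp, Real.log_pow,
    Real.log_mul (by positivity) (by positivity), Real.log_pow, Real.log_pow,
    Real.log_mul (by norm_num) hnR.ne', hk1, hk2, hρ] at hlog
  have hdl := Real.log_le_log (by positivity) hdis
  rw [Real.log_mul (by positivity) (by positivity), Real.log_pow, Real.log_pow] at hdl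
  push_cast at hlog
  refine ine_real g n D r1 ρ r2 (Real.log |(discr M : ℝ)|) (Real.log |(discr K : ℝ)|)
    (logHeight Y) (logHeight G) (Real.log p) (Real.log 2) (Real.log n) p hgR hnR
    (by rw [hDgn]; push_cast; rfl) (by positivity) (by positivity) (logHeight_nonneg _)
    (logHeight_nonneg _) (Real.log_nonneg (by norm_num)) (by exact_mod_cast hr2) (by positivity)
    hdl ?_
  linarith

end Pool.Agent.H81.REM
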