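import Pool.Agent.H26.REM.Targets4

/-! (GIU) the upper bound for the Gram determinant of the lattice of the values. -/

set_option autoImplicit false

namespace Pool.Agent.H81.REM

open Pool.Agent.H26.REM
open NumberField Height Finset Polynomial

theorem card_ext (K M : Type) [Field K] [NumberField K] [Field M] [NumberField M] [Algebra K M]
    (σ : K →+* ℂ) : Nat.card {s : M →+* ℂ // s.comp (algebraMap K M) = σ} =
      Module.finrank K M := by
  let _ : Algebra K ℂ := σ.toAlgebra
  have e : {s : M →+* ℂ // s.comp (algebraMap K M) = σ} ≃ (M →ₐ[K] ℂ) :=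
    { toFun := fun s => { s.1 with
        commutes' := fun x => congrArg (fun f : K →+* ℂ => f x) s.2 }
      invFun := fun f => ⟨f.toRingHom, by
        ext x
        exact f.commutes x⟩
      left_inv := fun s => by
        apply Subtype.ext
        ext x
        rfl
      right_inv := fun f => by
        ext x
        rfl }
  rw [Nat.card_congr e, Nat.card_eq_fintype_card]
  exact AlgHom.card K M ℂ

theorem pf_GIU (hBLE : T_BLE) (hFIB : T_FIB) (hDKG : T_DKG) : T_GIU := by
  classical
  intro K M _ _ _ _ _ k R φ Y w hw hwY hinj m z hz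
  obtain ⟨ω, e, hωi, hωg, hωd⟩ := hDKG K
  have hsing : ∀ (x : K) (j : Fin R) (b : Fin k),
      EE φ Y (Pi.single j x) b = algebraMap K M (φ b x) * Y b j := by
    intro x j b
    change ∑ j', algebraMap K M (φ b ((Pi.single j x : Fin R → K) j')) * Y b j' = _
    rw [Finset.sum_eq_single j]
    · rw [Pi.single_eq_same]
    · intro j' _ hj'
      rw [Pi.single_eq_of_ne hj', map_zero, map_zero, zero_mul]
    · intro h
      exact absurd (Finset.mem_univ j) h
  set F : Fin (Module.finrank ℚ K) × Fin R → (Fin k → M) :=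
    fun l => EE φ Y (Pi.single l.2 (ω l.1 : K)) with hF
  have hFi : LinearIndependent ℚ F := by
    rw [Fintype.linearIndependent_iff]
    intro q hq
    have h1 : EE φ Y (∑ l, q l • (Pi.single l.2 (ω l.1 : K) : Fin R → K)) = 0 := by
      rw [map_sum, ← hq]
      refine Finset.sum_congr rfl fun l _ => ?_
      rw [map_rat_smul]
    have h2 := hinj _ h1
    have h3 : ∀ j : Fin R, ∀ l, q (l, j) = 0 := by
      intro j
      have h4 := congrFun h2 j
      rw [Finset.sum_apply, Fintype.sum_prod_type] at h4
      have h5 : ∑ l, q (l, j) • (ω l : K) = 0 := by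
        rw [← Pi.zero_apply (M := fun _ : Fin R => K) j, ← h4]
        refine Finset.sum_congr rfl fun l _ => ?_
        rw [Finset.sum_eq_single j]
        · rw [Pi.smul_apply, Pi.single_eq_same]
        · intro j' _ hj'
          rw [Pi.smul_apply, Pi.single_eq_of_ne (Ne.symm hj'), smul_zero]
        · intro h
          exact absurd (Finset.mem_univ j) h
      exact Fintype.linearIndependent_iff.1 hωi _ h5
    intro l
    exact h3 l.2 l.1
  have hFL : ∀ l, F l ∈ ELam φ Y := by
    intro l
    refine Submodule.subset_span ⟨Pi.single l.2 (ω l.1), ?_⟩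
    rw [hF]
    change EE φ Y _ = EE φ Y _
    congr 1
    funext j
    by_cases hj : j = l.2
    · subst hj
      rw [Pi.single_eq_same, Pi.single_eq_same]
    · rw [Pi.single_eq_of_ne hj, Pi.single_eq_of_ne hj]
      rfl
  have hspan : Submodule.span ℚ (Set.range F) = Submodule.span ℚ (ELam φ Y : Set (Fin k → M)) := by
    apply le_antisymm
    · refine Submodule.span_mono ?_
      rintro _ ⟨l, rfl⟩
      exact hFL l
    · rw [Submodule.span_le]
      intro y hy
      have h1 : y ∈ Submodule.span ℤ (Set.range F) := by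
        unfold ELam at hy
        refine (Submodule.span_le (p := Submodule.span ℤ (Set.range F))).2 ?_ hy
        rintro _ ⟨x, rfl⟩
        choose c hc using fun j => hωg (x j)
        have h2 : EE φ Y (fun j => (x j : K)) = ∑ l : Fin (Module.finrank ℚ K) × Fin R,
            (c l.2 l.1 : ℤ) • F l := by
          have h3 : (fun j => (x j : K)) = ∑ l : Fin (Module.finrank ℚ K) × Fin R,
              (c l.2 l.1 : ℤ) • (Pi.single l.2 (ω l.1 : K) : Fin R → K) := by
            funext j
            rw [Finset.sum_apply, Fintype.sum_prod_type]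
            have h4 := congrArg (fun t : 𝓞 K => (t : K)) (hc j)
            simp only [map_sum, map_mul, map_intCast] at h4
            rw [h4]
            refine Finset.sum_congr rfl fun l _ => ?_
            rw [Finset.sum_eq_single j]
            · rw [Pi.smul_apply, Pi.single_eq_same, zsmul_eq_mul]
            · intro j' _ hj'
              rw [Pi.smul_apply, Pi.single_eq_of_ne (Ne.symm hj'), smul_zero]
            · intro h
              exact absurd (Finset.mem_univ j) h
          rw [h3, map_sum]
          refine Finset.sum_congr rfl fun l _ => ?_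
          rw [map_zsmul]
        rw [SetLike.mem_coe, h2]
        exact Submodule.sum_mem _ fun l _ => Submodule.smul_mem _ _
          (Submodule.subset_span ⟨l, rfl⟩)
      exact Submodule.span_subset_span ℤ ℚ _ h1
  have hm : m = Module.finrank ℚ K * R := by
    have h1 : Module.finrank ℚ (Submodule.span ℚ (ELam φ Y : Set (Fin k → M))) = m := by
      rw [← hz.2.1, finrank_span_eq_card hz.1, Fintype.card_fin]
    have h2 : Module.finrank ℚ (Submodule.span ℚ (Set.range F)) = Module.finrank ℚ K * R := by
      rw [finrank_span_eq_card hFi, Fintype.card_prod, Fintype.card_fin, Fintype.card_fin]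
    rw [← h1, ← hspan, h2]
  refine ⟨hm, ?_⟩
  have hB := hBLE (Fin k → M) (EuclideanSpace ℂ (Fin k × (M →+* ℂ))) (Fin m)
    (Fin (Module.finrank ℚ K) × Fin R) (ELam φ Y)
    (Submodule.span ℚ (ELam φ Y : Set (Fin k → M))) (vecK M w) z F hz hFi
    (fun l => ⟨hFL l, Submodule.subset_span (hFL l)⟩)
    (by rw [Fintype.card_prod, Fintype.card_fin, Fintype.card_fin, Fintype.card_fin, hm])
  refine hB.trans ?_
  have hX := hFIB (Fin k × (M →+* ℂ)) (K →+* ℂ)
    (fun x => (x.2.comp (algebraMap K M)).comp (φ x.1 : K →+* K)) (Module.finrank ℚ K) R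
    (k * Module.finrank K M) e (fun l τ => τ (ω l : K))
    (fun j x => (w x.1 x.2 : ℂ) * x.2 (Y x.1 j)) ?_ ?_
  · have e1 : (fun i => (vecK M w) (F i)) = fun l : Fin (Module.finrank ℚ K) × Fin R =>
        (WithLp.toLp 2 fun x : Fin k × (M →+* ℂ) =>
          ((x.2.comp (algebraMap K M)).comp (φ x.1 : K →+* K)) (ω l.1 : K) *
            ((w x.1 x.2 : ℂ) * x.2 (Y x.1 l.2)) : EuclideanSpace ℂ (Fin k × (M →+* ℂ))) := by
      funext l
      change (WithLp.toLp 2 fun s : Fin k × (M →+* ℂ) => (w s.1 s.2 : ℂ) * s.2 (F l s.1)) = _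
      congr 1
      funext x
      rw [hF]
      change (w x.1 x.2 : ℂ) * x.2 (EE φ Y (Pi.single l.2 (ω l.1 : K)) x.1) =
        x.2 (algebraMap K M (φ x.1 (ω l.1 : K))) * ((w x.1 x.2 : ℂ) * x.2 (Y x.1 l.2))
      rw [hsing, map_mul]
      ring
    rw [e1]
    refine hX.trans (le_of_eq ?_)
    rw [pow_mul, hωd]
    push_cast
    rfl
  · intro j x
    rw [norm_mul, Complex.norm_real, Real.norm_of_nonneg (hw _ _).le]
    exact hwY x.1 j x.2
  · intro τ
    have h1 : Function.Injective (fun x : {x : Fin k × (M →+* ℂ) //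
        (x.2.comp (algebraMap K M)).comp (φ x.1 : K →+* K) = τ} =>
        (⟨x.1.1, ⟨x.1.2, by
          ext y
          have h2 := congrArg (fun f : K →+* ℂ => f ((φ x.1.1).symm y)) x.2
          simpa using h2⟩⟩ : Σ b : Fin k, {s : M →+* ℂ //
            s.comp (algebraMap K M) = τ.comp ((φ b).symm : K →+* K)})) := by
      rintro ⟨⟨b, s⟩, h⟩ ⟨⟨b', s'⟩, h'⟩ hxy
      simp only [Sigma.mk.injEq] at hxy
      obtain ⟨rfl, h2⟩ := hxy
      have h3 := eq_of_heq h2
      rw [Subtype.mk.injEq] at h3
      subst h3
      rfl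
    refine (Nat.card_le_card_of_injective _ h1).trans (le_of_eq ?_)
    rw [Nat.card_sigma]
    simp only [card_ext, Finset.sum_const, Finset.card_univ, Fintype.card_fin, smul_eq_mul]

end Pool.Agent.H81.REM
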