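import Pool.Agent.H26.REM.Targets4

/-! (SLK) Lemma S for the lattices given by bounds at the finite places. -/

set_option autoImplicit false

namespace Pool.Agent.H81.REM

open Pool.Agent.H26.REM
open NumberField Height Finset Polynomial

/-- a diagonal map -/
noncomputable def dg {ι : Type} [Fintype ι] (d : ι → ℂ) :
    EuclideanSpace ℂ ι →ₗ[ℂ] EuclideanSpace ℂ ι where
  toFun x := WithLp.toLp 2 fun s => d s * x s
  map_add' x y := by
    ext s
    simp [mul_add]
  map_smul' c x := by
    ext s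
    simp only [PiLp.smul_apply, smul_eq_mul, RingHom.id_apply]
    ring

theorem dg_norm {ι : Type} [Fintype ι] (d : ι → ℂ) (hd : ∀ s, ‖d s‖ ≤ 1)
    (x : EuclideanSpace ℂ ι) : ‖dg d x‖ ≤ ‖x‖ := by
  rw [EuclideanSpace.norm_eq, EuclideanSpace.norm_eq]
  refine Real.sqrt_le_sqrt (Finset.sum_le_sum fun s _ => ?_)
  have h1 : ‖(dg d x) s‖ = ‖d s‖ * ‖x s‖ := by
    change ‖d s * x s‖ = _
    rw [norm_mul]
  rw [h1]
  have h2 : ‖d s‖ * ‖x s‖ ≤ ‖x s‖ := mul_le_of_le_one_left (norm_nonneg _) (hd s)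
  gcongr

theorem prod_emb {M : Type} [Field M] [NumberField M] (f : InfinitePlace M → ℝ) :
    ∏ s : M →+* ℂ, f (InfinitePlace.mk s) = ∏ v : InfinitePlace M, f v ^ v.mult := by
  classical
  rw [← Finset.prod_fiberwise (s := Finset.univ) (g := fun s : M →+* ℂ => InfinitePlace.mk s)]
  refine Finset.prod_congr rfl fun v _ => ?_
  rw [Finset.prod_congr rfl (g := fun _ => f v) (fun s hs => by rw [(Finset.mem_filter.1 hs).2]),
    Finset.prod_const, ← InfinitePlace.card_filter_mk_eq]

theorem pf_SLK (hLSK : T_LSK) (hLTF : T_LTF) (hLTV : T_LTV) (hEMB : T_EMB) (hBEX : T_BEX)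
    (hBLE : T_BLE) : T_SLK := by
  classical
  intro K M _ _ _ _ _ t w S _ G ht htf hw hG hspan U k z hz hzU hzL
  -- the index set
  have hne : Nonempty S := by
    by_contra hcon
    rw [not_nonempty_iff] at hcon
    have h1 : Set.range G = ∅ := Set.range_eq_empty G
    rw [h1, Submodule.span_empty] at hspan
    have h2 : (1 : M) ∈ (⊥ : Submodule K M) := by
      rw [hspan]
      trivial
    exact one_ne_zero ((Submodule.mem_bot K).1 h2)
  obtain ⟨i₀⟩ := hne
  have hG0 : G ≠ 0 := fun h => hG i₀ (congrFun h i₀)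
  set mG : FinitePlace M → ℝ := fun v => ⨆ i, v (G i) with hmG
  set sG : (M →+* ℂ) → ℝ := fun s => ⨆ i, ‖s (G i)‖ with hsG
  have hmle : ∀ (v : FinitePlace M) (i : S), v (G i) ≤ mG v := fun v i =>
    le_ciSup (Set.finite_range fun i => v (G i)).bddAbove i
  have hsle : ∀ (s : M →+* ℂ) (i : S), ‖s (G i)‖ ≤ sG s := fun s i =>
    le_ciSup (Set.finite_range fun i => ‖s (G i)‖).bddAbove i
  have hvpos : ∀ (v : FinitePlace M) (i : S), 0 < v (G i) := fun v i =>
    FinitePlace.pos_iff.2 (hG i)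
  have hmpos : ∀ v, 0 < mG v := fun v => (hvpos v i₀).trans_le (hmle v i₀)
  have hspos : ∀ s, 0 < sG s := fun s => (norm_pos_iff.2 ((map_ne_zero s).2 (hG i₀))).trans_le
    (hsle s i₀)
  have hmf : {v | mG v ≠ 1}.Finite := by
    have h1 : (⋃ i, {v : FinitePlace M | v (G i) ≠ 1}).Finite :=
      Set.finite_iUnion fun i => FinitePlace.hasFiniteMulSupport (hG i)
    refine h1.subset ?_
    intro v hv
    rw [Set.mem_iUnion]
    by_contra hcon
    push Not at hcon
    apply hv
    have h2 : ∀ i, v (G i) = 1 := by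
      intro i
      by_contra h3
      exact hcon i h3
    have : Nonempty S := ⟨i₀⟩
    change ⨆ i, v (G i) = 1
    simp only [h2, ciSup_const]
  set t' : FinitePlace M → ℝ := fun v => t v * mG v with ht'
  set w' : (M →+* ℂ) → ℝ := fun s => w s / sG s with hw'
  have ht'pos : ∀ v, 0 < t' v := fun v => mul_pos (ht v) (hmpos v)
  have hw'pos : ∀ s, 0 < w' s := fun s => div_pos (hw s) (hspos s)
  have ht'f : {v | t' v ≠ 1}.Finite := by
    refine (htf.union hmf).subset ?_
    intro v hv
    by_contra hcon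
    rw [Set.mem_union, not_or] at hcon
    obtain ⟨h1, h2⟩ := hcon
    have h3 : t v = 1 := by
      by_contra h
      exact h1 h
    have h4 : mG v = 1 := by
      by_contra h
      exact h2 h
    apply hv
    change t v * mG v = 1
    rw [h3, h4, one_mul]
  obtain ⟨hL1, hL2, hL3⟩ := hLTF M t ht htf
  obtain ⟨hL1', hL2', hL3'⟩ := hLTF M t' ht'pos ht'f
  have hj := (hEMB M w w hw hw).1
  have hj' := (hEMB M w' w' hw'pos hw'pos).1
  -- the bases
  obtain ⟨a, -, x, -, hx, -⟩ := hBEX M (LT M t) hL2 (U.restrictScalars ℚ) (U.restrictScalars ℚ)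
    le_rfl (by rw [hL3]; exact le_top)
  obtain ⟨a', -, x', -, hx', -⟩ := hBEX M (LT M t') hL2' ⊤ ⊤ le_rfl (by rw [hL3'])
  have hak : a = k := by
    have h1 : Module.finrank ℚ (U.restrictScalars ℚ) = a := by
      rw [← hx.2.1, finrank_span_eq_card hx.1, Fintype.card_fin]
    have h2 : Module.finrank ℚ (U.restrictScalars ℚ) = k := by
      rw [← hzU, finrank_span_eq_card hz, Fintype.card_fin]
    rw [← h1, h2]
  subst hak
  have hble := hBLE M (EuclideanSpace ℂ (M →+* ℂ)) (Fin a) (Fin a) (LT M t)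
    (U.restrictScalars ℚ) (vec M w) x z hx hz
    (fun i => ⟨hzL i, by rw [← hzU]; exact Submodule.subset_span ⟨i, rfl⟩⟩) rfl
  -- Lemma S
  obtain ⟨N, ⟨ee⟩⟩ := Finite.exists_equiv_fin S
  have hlsk := hLSK K M (EuclideanSpace ℂ (M →+* ℂ)) (EuclideanSpace ℂ (M →+* ℂ)) (LT M t)
    (LT M t') (vec M w) (vec M w') hj hj' hL2 hL2' hL3 hL3' N
    (fun i => LinearMap.mulLeft K (G (ee.symm i)))
    (fun i => dg fun s => s (G (ee.symm i)) / (sG s : ℂ)) ?_ ?_ ?_ ?_ ?_ a' x' hx' U a x hx
  rotate_left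
  · intro i y
    ext s
    change ((w' s : ℝ) : ℂ) * s (G (ee.symm i) * y) =
      s (G (ee.symm i)) / (sG s : ℂ) * ((w s : ℂ) * s y)
    rw [hw', map_mul]
    push_cast
    ring
  · intro i y
    refine dg_norm _ (fun s => ?_) y
    rw [norm_div, Complex.norm_real, Real.norm_of_nonneg (hspos s).le]
    exact (div_le_one (hspos s)).2 (hsle s _)
  · intro i x y hxy
    change G (ee.symm i) * x = G (ee.symm i) * y at hxy
    exact mul_left_cancel₀ (hG _) hxy
  · intro i y hy
    rw [hL1']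
    intro v
    have h1 := (hL1 y).1 hy v
    change v.1 (G (ee.symm i) * y) ≤ t v * mG v
    rw [map_mul, mul_comm (t v)]
    exact mul_le_mul (hmle v _) h1 (v.1.nonneg _) (hmpos v).le
  · intro W hW
    obtain ⟨u, huW, hu0⟩ := Submodule.exists_mem_ne_zero_of_ne_bot hW
    rw [eq_top_iff]
    intro y _
    have h1 : y / u ∈ Submodule.span K (Set.range G) := by
      rw [hspan]
      trivial
    have h2 : Submodule.span K (Set.range G) ≤
        (⨆ i, W.map (LinearMap.mulLeft K (G (ee.symm i)))).comap (LinearMap.mulRight K u) := by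
      rw [Submodule.span_le]
      rintro _ ⟨i, rfl⟩
      rw [SetLike.mem_coe, Submodule.mem_comap, LinearMap.mulRight_apply]
      refine Submodule.mem_iSup_of_mem (ee i) ?_
      refine ⟨u, huW, ?_⟩
      rw [LinearMap.mulLeft_apply, Equiv.symm_apply_apply]
    have h3 := h2 h1
    rw [Submodule.mem_comap, LinearMap.mulRight_apply, div_mul_cancel₀ _ hu0] at h3
    exact h3
  -- the volume
  have hltv := hLTV M t' ht'pos ht'f w' hw'pos a' x' hx'
  have hfp : ∏ᶠ v, t' v = (∏ᶠ v, t v) * ∏ᶠ v, mG v := finprod_mul_distrib htf hmf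
  have hpw : ∏ s, w' s = (∏ s, w s) / ∏ s, sG s := Finset.prod_div_distrib _ _
  have hMH : mulHeight G = (∏ s, sG s) * ∏ᶠ v, mG v := by
    rw [NumberField.mulHeight_eq hG0, ← prod_emb fun v => ⨆ i, v (G i)]
    rfl
  have hsGp : 0 < ∏ s, sG s := Finset.prod_pos fun s _ => hspos s
  have hwp : 0 < ∏ s, w s := Finset.prod_pos fun s _ => hw s
  have htp : 0 < ∏ᶠ v, t v := by
    rw [finprod_eq_prod_of_mulSupport_subset (s := htf.toFinset) _ (by
      intro v hv
      rw [Set.Finite.coe_toFinset]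
      exact hv)]
    exact Finset.prod_pos fun v _ => ht v
  have hmp : 0 < ∏ᶠ v, mG v := by
    rw [finprod_eq_prod_of_mulSupport_subset (s := hmf.toFinset) _ (by
      intro v hv
      rw [Set.Finite.coe_toFinset]
      exact hv)]
    exact Finset.prod_pos fun v _ => hmpos v
  have hlt : Real.log (∏ᶠ v, t v) = ∑ᶠ v, Real.log (t v) := by
    rw [finprod_eq_prod_of_mulSupport_subset (s := htf.toFinset) _ (by
      intro v hv
      rw [Set.Finite.coe_toFinset]
      exact hv),
      finsum_eq_sum_of_support_subset (s := htf.toFinset) _ (by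
        intro v hv
        rw [Set.Finite.coe_toFinset]
        intro h
        apply hv
        change Real.log (t v) = 0
        rw [h, Real.log_one]), Real.log_prod fun v _ => (ht v).ne']
  have hdM : (0 : ℝ) < |(discr M : ℝ)| := by
    rw [abs_pos]
    exact_mod_cast NumberField.discr_ne_zero M
  set X : ℝ := |(discr M : ℝ)| * (∏ s, w' s) ^ 2 * ((∏ᶠ v, t' v) ^ 2)⁻¹ with hX
  have hXp : 0 < X := by
    rw [hX, hpw, hfp]
    positivity
  have hlX : Real.log X = Real.log |(discr M : ℝ)| + 2 * ∑ s, Real.log (w s) -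
      2 * ∑ᶠ v, Real.log (t v) - 2 * logHeight G := by
    rw [hX, hpw, hfp, Real.log_mul (by positivity) (by positivity), Real.log_inv,
      Real.log_mul hdM.ne' (by positivity), Real.log_pow, Real.log_pow,
      Real.log_div hwp.ne' hsGp.ne', Real.log_mul htp.ne' hmp.ne', hlt,
      Real.log_prod fun s _ => (hw s).ne', logHeight_eq_log_mulHeight, hMH,
      Real.log_mul hsGp.ne' hmp.ne']
    push_cast
    ring
  have hD0 : 0 < Module.finrank ℚ M := Module.finrank_pos
  have hDR : (0 : ℝ) < Module.finrank ℚ M := by exact_mod_cast hD0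
  have hGDz : 0 ≤ GD fun i => vec M w (z i) := norm_nonneg _
  have hGDx : 0 ≤ GD fun i => vec M w (x i) := norm_nonneg _
  have hch : X ^ a ≤ (GD fun i => vec M w (z i)) ^ Module.finrank ℚ M :=
    (pow_le_pow_left₀ hXp.le hltv a).trans (hlsk.trans (pow_le_pow_left₀ hGDx hble _))
  have hGDp : 0 < GD fun i => vec M w (z i) := by
    rcases hGDz.lt_or_eq with h | h
    · exact h
    · rw [← h, zero_pow hD0.ne'] at hch
      exact absurd hch (not_le.2 (pow_pos hXp a))
  rw [← hlX, ← Real.le_log_iff_exp_le hGDp, div_mul_eq_mul_div, div_le_iff₀ hDR]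
  have h1 := Real.log_le_log (pow_pos hXp a) hch
  rw [Real.log_pow, Real.log_pow] at h1
  linarith

end Pool.Agent.H81.REM
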